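import Pool.Agent.Q247.SY.Stm

/-!
# Project SY of helper247: `S_CONJ`
-/

set_option autoImplicit false
open scoped NumberField
open NumberField

namespace Pool.Agent.Q119.SY

open Finset Q247.SY

theorem t_CONJ : S_CONJ := by
  intro hSN K _ _ n a hps
  obtain ⟨N, π, v, hv, hsol⟩ := hps
  obtain ⟨m, hm, r, hr, hσ⟩ := hSN K (N + 4)
  obtain ⟨d, hd⟩ : ∃ d, m = N + (4 + d) := ⟨m - (N + 4), by omega⟩
  subst hd
  obtain ⟨e, -⟩ : ∃ e : Fin N ⊕ Fin (4 + d) ≃ Fin (N + (4 + d)), True := ⟨finSumFinEquiv, trivial⟩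
  obtain ⟨r', hr'⟩ : ∃ r' : Fin N ⊕ Fin (4 + d) → AlgebraicClosure K, r' = fun j => r (e j) :=
    ⟨_, rfl⟩
  have hinj : Function.Injective r' := by
    rw [hr']
    exact hr.comp e.injective
  have haut : ∀ σ : Equiv.Perm (Fin N ⊕ Fin (4 + d)), Equiv.Perm.sign σ = 1 →
      ∃ φ : AlgebraicClosure K ≃ₐ[K] AlgebraicClosure K, ∀ j, φ (r' j) = r' (σ j) := by
    intro σ hs
    obtain ⟨φ, hφ⟩ := hσ (e.permCongr σ) (by
      rw [Equiv.Perm.mem_alternatingGroup, Equiv.Perm.sign_permCongr]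
      exact hs)
    refine ⟨φ, fun j => ?_⟩
    rw [hr']
    show φ (r (e j)) = r (e (σ j))
    rw [hφ, Equiv.permCongr_apply, Equiv.symm_apply_apply]
  -- the coefficients
  obtain ⟨w, hw⟩ : ∃ w : Fin N ⊕ Fin (4 + d) → 𝓞 K, w = Sum.elim v (fun _ => 0) := ⟨_, rfl⟩
  obtain ⟨c, hc⟩ : ∃ c : 𝓞 K → AlgebraicClosure K,
      c = fun x : 𝓞 K => algebraMap K (AlgebraicClosure K) (x : K) := ⟨_, rfl⟩
  have hc0 : c 0 = 0 := by rw [hc]; simp
  have hcadd : ∀ (s : Finset (Fin n)) (f : Fin n → 𝓞 K), c (∑ i ∈ s, f i) = ∑ i ∈ s, c (f i) := by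
    intro s f
    rw [hc]
    simp only [map_sum]
  have hcmul : ∀ x y, c (x * y) = c x * c y := by
    intro x y
    rw [hc]
    simp
  have hcinj : ∀ x, c x = 0 → x = 0 := by
    intro x hx
    rw [hc] at hx
    have h1 : (x : K) = 0 := by
      have := (map_eq_zero (algebraMap K (AlgebraicClosure K))).1 hx
      exact this
    exact_mod_cast h1
  have hφc : ∀ (φ : AlgebraicClosure K ≃ₐ[K] AlgebraicClosure K) (x : 𝓞 K), φ (c x) = c x := by
    intro φ x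
    rw [hc]
    exact φ.commutes _
  -- the permutations
  have hπ' : ∀ i, ∃ τ : Equiv.Perm (Fin (4 + d)),
      Equiv.Perm.sign (Equiv.Perm.sumCongr (π i) τ) = 1 := by
    intro i
    rcases Int.units_eq_one_or (Equiv.Perm.sign (π i)) with h | h
    · refine ⟨1, ?_⟩
      rw [Equiv.Perm.sign_sumCongr, h]
      simp
    · refine ⟨Equiv.swap ⟨0, by omega⟩ ⟨1, by omega⟩, ?_⟩
      rw [Equiv.Perm.sign_sumCongr, h, Equiv.Perm.sign_swap (by simp)]
      simp
  choose τ hτ using hπ'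
  obtain ⟨P, hP⟩ : ∃ P : Fin n → Equiv.Perm (Fin N ⊕ Fin (4 + d)),
      P = fun i => Equiv.Perm.sumCongr (π i) (τ i) := ⟨_, rfl⟩
  have hPs : ∀ i, Equiv.Perm.sign ((P i)⁻¹) = 1 := by
    intro i
    rw [hP, Equiv.Perm.sign_inv]
    exact hτ i
  have hsol' : ∀ j, ∑ i, a i * w (P i j) = 0 := by
    intro j
    rw [hP, hw]
    rcases j with j | j
    · simpa using hsol j
    · simp
  obtain ⟨γ, hγ⟩ : ∃ γ : AlgebraicClosure K, γ = ∑ j, c (w j) * r' j := ⟨_, rfl⟩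
  have hex : ∀ i, ∃ φ : AlgebraicClosure K ≃ₐ[K] AlgebraicClosure K, ∀ j, φ (r' j) = r' ((P i)⁻¹ j) :=
    fun i => haut _ (hPs i)
  choose φ hφ using hex
  have hφγ : ∀ i, φ i γ = ∑ k, c (w (P i k)) * r' k := by
    intro i
    rw [hγ, map_sum]
    rw [← Equiv.sum_comp (P i) (fun j => (φ i) (c (w j) * r' j))]
    refine sum_congr rfl fun k _ => ?_
    rw [map_mul, hφc, hφ]
    have h1 : (P i)⁻¹ (P i k) = k := (P i).symm_apply_apply k
    rw [h1]
  have hγ0 : γ ≠ 0 := by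
    intro h0
    obtain ⟨j₀, hj₀⟩ : ∃ j₀, v j₀ ≠ 0 := Function.ne_iff.1 hv
    obtain ⟨p, hp⟩ : ∃ p : Fin N ⊕ Fin (4 + d), p = Sum.inr ⟨0, by omega⟩ := ⟨_, rfl⟩
    obtain ⟨q, hq⟩ : ∃ q : Fin N ⊕ Fin (4 + d), q = Sum.inr ⟨1, by omega⟩ := ⟨_, rfl⟩
    have hpq : p ≠ q := by rw [hp, hq]; simp
    have hjp : (Sum.inl j₀ : Fin N ⊕ Fin (4 + d)) ≠ p := by rw [hp]; simp
    have hjq : (Sum.inl j₀ : Fin N ⊕ Fin (4 + d)) ≠ q := by rw [hq]; simp
    obtain ⟨ψ, hψ⟩ := haut (Equiv.swap (Sum.inl j₀) p * Equiv.swap p q) (by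
      rw [map_mul, Equiv.Perm.sign_swap hjp, Equiv.Perm.sign_swap hpq]
      simp)
    have h1 : ψ γ - γ = 0 := by rw [h0]; simp
    have h2 : ψ γ - γ = ∑ j, c (w j) * (r' ((Equiv.swap (Sum.inl j₀) p * Equiv.swap p q) j) - r' j) := by
      rw [hγ, map_sum, ← sum_sub_distrib]
      refine sum_congr rfl fun j _ => ?_
      rw [map_mul, hφc, hψ]
      ring
    rw [h2, sum_eq_single (Sum.inl j₀)] at h1
    · have h3 : (Equiv.swap (Sum.inl j₀) p * Equiv.swap p q) (Sum.inl j₀) = p := by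
        rw [Equiv.Perm.mul_apply, Equiv.swap_apply_of_ne_of_ne hjp hjq, Equiv.swap_apply_left]
      rw [h3] at h1
      rcases mul_eq_zero.1 h1 with h4 | h4
      · have h5 := hcinj _ h4
        rw [hw] at h5
        exact hj₀ h5
      · exact hjp (hinj (sub_eq_zero.1 h4)).symm
    · intro j _ hj
      rcases j with j | j
      · have h3 : (Equiv.swap (Sum.inl j₀) p * Equiv.swap p q) (Sum.inl j) = Sum.inl j := by
          have e1 : (Sum.inl j : Fin N ⊕ Fin (4 + d)) ≠ p := by rw [hp]; simp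
          have e2 : (Sum.inl j : Fin N ⊕ Fin (4 + d)) ≠ q := by rw [hq]; simp
          rw [Equiv.Perm.mul_apply, Equiv.swap_apply_of_ne_of_ne e1 e2,
            Equiv.swap_apply_of_ne_of_ne hj e1]
        rw [h3, sub_self, mul_zero]
      · rw [hw]
        simp [hc0]
    · intro h
      exact absurd (mem_univ _) h
  refine ⟨fun i => φ i γ, fun i => ?_, fun i j => ?_, ?_⟩
  · exact (map_ne_zero_iff _ (φ i).injective).2 hγ0
  · show minpoly K (φ i γ) = minpoly K (φ j γ)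
    rw [minpoly.algEquiv_eq, minpoly.algEquiv_eq]
  · show ∑ i, algebraMap K (AlgebraicClosure K) (a i : K) * φ i γ = 0
    have h1 : ∀ i, algebraMap K (AlgebraicClosure K) (a i : K) * φ i γ
        = ∑ k, c (a i * w (P i k)) * r' k := by
      intro i
      rw [hφγ, mul_sum]
      refine sum_congr rfl fun k _ => ?_
      rw [hcmul, hc]
      ring
    rw [sum_congr rfl fun i _ => h1 i, sum_comm]
    refine sum_eq_zero fun k _ => ?_
    rw [← sum_mul, ← hcadd, hsol' k, hc0, zero_mul]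

end Pool.Agent.Q119.SY
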