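import Pool.Agent.Q247.SY.Stm

/-!
# Project SY of helper247: `S_NECA`
-/

set_option autoImplicit false
open scoped NumberField
open NumberField

namespace Pool.Agent.Q119.SY

open Finset Q247.SY

/-- equality in the triangle inequality -/
theorem tri_eq {ι : Type} (s : Finset ι) (x : ι → ℂ) (B : ι → ℝ) (hB : ∀ j ∈ s, ‖x j‖ ≤ B j)
    (h : ∑ j ∈ s, B j ≤ ‖∑ j ∈ s, x j‖) :
    ∀ j ∈ s, ‖x j‖ = B j ∧ (‖x j‖ : ℂ) * ∑ j ∈ s, x j = (‖∑ j ∈ s, x j‖ : ℂ) * x j := by
  obtain ⟨T, hT⟩ : ∃ T : ℂ, T = ∑ j ∈ s, x j := ⟨_, rfl⟩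
  rw [← hT] at h ⊢
  have h1 : ∀ j ∈ s, inner ℝ (x j) T ≤ ‖x j‖ * ‖T‖ := fun j _ => real_inner_le_norm _ _
  have h2 : ∑ j ∈ s, inner ℝ (x j) T = ‖T‖ * ‖T‖ := by
    rw [← sum_inner, ← hT, real_inner_self_eq_norm_mul_norm]
  have h3 : ∀ j ∈ s, ‖x j‖ * ‖T‖ ≤ B j * ‖T‖ := fun j hj =>
    mul_le_mul_of_nonneg_right (hB j hj) (norm_nonneg _)
  have h4 : ∑ j ∈ s, B j * ‖T‖ ≤ ‖T‖ * ‖T‖ := by
    rw [← sum_mul]
    exact mul_le_mul_of_nonneg_right h (norm_nonneg _)
  have h5 : ∀ j ∈ s, inner ℝ (x j) T = B j * ‖T‖ := by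
    have h6 : ∑ j ∈ s, inner ℝ (x j) T = ∑ j ∈ s, B j * ‖T‖ :=
      le_antisymm (sum_le_sum fun j hj => (h1 j hj).trans (h3 j hj)) (by rw [h2]; exact h4)
    exact (sum_eq_sum_iff_of_le fun j hj => (h1 j hj).trans (h3 j hj)).1 h6
  intro j hj
  have e1 : inner ℝ (x j) T = ‖x j‖ * ‖T‖ := le_antisymm (h1 j hj) (by
    rw [h5 j hj]
    exact h3 j hj)
  constructor
  · by_cases hT0 : ‖T‖ = 0
    · -- all the bounds vanish
      have hB0 : ∀ j ∈ s, 0 ≤ B j := fun j hj => (norm_nonneg _).trans (hB j hj)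
      have h7 : ∑ j ∈ s, B j = 0 := le_antisymm (by rw [← hT0]; exact h) (sum_nonneg hB0)
      have h8 := (sum_eq_zero_iff_of_nonneg hB0).1 h7 j hj
      have h9 := hB j hj
      rw [h8] at h9 ⊢
      exact le_antisymm h9 (norm_nonneg _)
    · have h7 : ‖x j‖ * ‖T‖ = B j * ‖T‖ := by rw [← e1, h5 j hj]
      exact mul_right_cancel₀ hT0 h7
  · have h7 := inner_eq_norm_mul_iff_real.1 e1
    rw [Complex.real_smul, Complex.real_smul] at h7
    exact h7.symm

/-- a number which maps a finite set of nonzero numbers to itself is a root of unity -/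
theorem rou_of {s : Set ℂ} (hs : s.Finite) {y u : ℂ} (hy : y ∈ s) (hy0 : y ≠ 0) (hu : u ≠ 0)
    (h : ∀ z ∈ s, u * z ∈ s) : ∃ m : ℕ, 0 < m ∧ u ^ m = 1 := by
  have hpow : ∀ k : ℕ, u ^ k * y ∈ s := by
    intro k
    induction k with
    | zero => simpa using hy
    | succ k ih =>
      have := h _ ih
      rw [pow_succ', mul_assoc]
      exact this
  have hni : ¬ Function.Injective (fun k : ℕ => u ^ k * y) := by
    intro hinj
    have : (Set.range (fun k : ℕ => u ^ k * y)).Infinite := Set.infinite_range_of_injective hinj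
    exact this (hs.subset (by rintro _ ⟨k, rfl⟩; exact hpow k))
  rw [Function.Injective] at hni
  push Not at hni
  obtain ⟨k, l, hkl, hne⟩ := hni
  have hkl' : u ^ k = u ^ l := mul_right_cancel₀ hy0 hkl
  rcases lt_or_gt_of_ne hne with h1 | h1
  · refine ⟨l - k, by omega, ?_⟩
    have h2 : u ^ k * u ^ (l - k) = u ^ k * 1 := by
      rw [← pow_add, mul_one, hkl']
      congr 1
      omega
    exact mul_left_cancel₀ (pow_ne_zero k hu) h2
  · refine ⟨k - l, by omega, ?_⟩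
    have h2 : u ^ l * u ^ (k - l) = u ^ l * 1 := by
      rw [← pow_add, mul_one, ← hkl']
      congr 1
      omega
    exact mul_left_cancel₀ (pow_ne_zero l hu) h2

theorem t_NECA : S_NECA := by
  classical
  intro K _ _ n a hconj
  obtain ⟨α, hα0, hαm, hsum⟩ := hconj
  by_cases hst : Strong a
  · exact Or.inl hst
  right
  unfold Strong at hst
  push Not at hst
  obtain ⟨w, i, hwi⟩ := hst
  -- the embedding
  obtain ⟨ψ, hψ⟩ : ∃ ψ : AlgebraicClosure K →+* ℂ, ∀ x : K,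
      ψ (algebraMap K (AlgebraicClosure K) x) = w.embedding x := by
    let _ := w.embedding.toAlgebra
    obtain ⟨f, -⟩ : ∃ f : AlgebraicClosure K →ₐ[K] ℂ, True := ⟨IsAlgClosed.lift, trivial⟩
    exact ⟨f.toRingHom, fun x => f.commutes x⟩
  have hnorm : ∀ x : K, ‖ψ (algebraMap K (AlgebraicClosure K) x)‖ = w x := by
    intro x
    rw [hψ, InfinitePlace.norm_embedding_eq]
  have hψi : Function.Injective ψ := ψ.injective
  obtain ⟨Z, hZ⟩ : ∃ Z : Finset (AlgebraicClosure K),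
      Z = ((minpoly K (α i)).aroots (AlgebraicClosure K)).toFinset := ⟨_, rfl⟩
  have hint : IsIntegral K (α i) := (AlgebraicClosure.isAlgebraic K).isIntegral.isIntegral _
  have hmZ : ∀ x, x ∈ Z ↔ Polynomial.aeval x (minpoly K (α i)) = 0 := by
    intro x
    rw [hZ, Multiset.mem_toFinset, Polynomial.mem_aroots]
    exact ⟨fun h => h.2, fun h => ⟨minpoly.ne_zero hint, h⟩⟩
  have hφZ : ∀ (φ : AlgebraicClosure K ≃ₐ[K] AlgebraicClosure K) (j : Fin n), φ (α j) ∈ Z := by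
    intro φ j
    rw [hmZ, ← hαm j i]
    have h1 : Polynomial.aeval (φ (α j)) (minpoly K (α j))
        = φ (Polynomial.aeval (α j) (minpoly K (α j))) := by
      rw [← Polynomial.aeval_algHom_apply]
    rw [h1, minpoly.aeval, map_zero]
  have hαZ : α i ∈ Z := by
    rw [hmZ]
    exact minpoly.aeval _ _
  -- the maximum
  obtain ⟨β₀, hβ₀, hmax⟩ := Z.exists_max_image (fun β => ‖ψ β‖) ⟨_, hαZ⟩
  obtain ⟨R, hR⟩ : ∃ R : ℝ, R = ‖ψ β₀‖ := ⟨_, rfl⟩
  have hR0 : 0 < R := by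
    have h1 : 0 < ‖ψ (α i)‖ := by
      rw [norm_pos_iff, map_ne_zero]
      exact hα0 i
    rw [hR]
    exact h1.trans_le (hmax _ hαZ)
  have hle : ∀ β ∈ Z, ‖ψ β‖ ≤ R := by
    intro β hβ
    rw [hR]
    exact hmax β hβ
  -- the relation for an automorphism
  have hrel : ∀ φ : AlgebraicClosure K ≃ₐ[K] AlgebraicClosure K,
      ∑ j, w.embedding (a j : K) * ψ (φ (α j)) = 0 := by
    intro φ
    have h1 : ψ (φ (∑ j, algebraMap K (AlgebraicClosure K) (a j : K) * α j)) = 0 := by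
      rw [hsum, map_zero, map_zero]
    rw [map_sum, map_sum] at h1
    rw [← h1]
    refine sum_congr rfl fun j _ => ?_
    rw [map_mul, map_mul, φ.commutes, hψ]
  have hrel' : ∀ φ : AlgebraicClosure K ≃ₐ[K] AlgebraicClosure K,
      ∑ j ∈ univ.erase i, w.embedding (a j : K) * ψ (φ (α j))
        = -(w.embedding (a i : K) * ψ (φ (α i))) := by
    intro φ
    have h1 := hrel φ
    rw [← add_sum_erase _ _ (mem_univ i)] at h1
    rw [eq_neg_iff_add_eq_zero, add_comm]
    exact h1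
  by_cases hwi0 : w (a i : K) = 0
  · -- everything vanishes
    have h1 : ∀ j, (a j : K) = 0 := by
      intro j
      by_cases hj : j = i
      · rw [hj]
        exact (map_eq_zero w).1 hwi0
      · have h2 : w (a j : K) ≤ ∑ j ∈ univ.erase i, w (a j : K) :=
          single_le_sum (f := fun j => w (a j : K)) (fun j _ => apply_nonneg w _)
            (mem_erase.2 ⟨hj, mem_univ j⟩)
        have h3 : w (a j : K) = 0 := le_antisymm (by linarith) (apply_nonneg w _)
        exact (map_eq_zero w).1 h3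
    refine ⟨fun _ => 1, fun _ => ⟨1, one_pos, one_pow 1⟩, ?_⟩
    refine sum_eq_zero fun j _ => ?_
    rw [h1 j, map_zero, zero_mul]
  have hwi1 : 0 < w (a i : K) := lt_of_le_of_ne (apply_nonneg w _) (Ne.symm hwi0)
  have hei : w.embedding (a i : K) ≠ 0 := by
    rw [← norm_pos_iff, InfinitePlace.norm_embedding_eq]
    exact hwi1
  obtain ⟨u, hu⟩ : ∃ u : Fin n → ℂ, u = fun j => -(((w (a j : K) : ℝ) : ℂ) *
    w.embedding (a i : K) / (((w (a i : K) : ℝ) : ℂ) * w.embedding (a j : K))) := ⟨_, rfl⟩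
  have key : ∀ φ : AlgebraicClosure K ≃ₐ[K] AlgebraicClosure K, ‖ψ (φ (α i))‖ = R →
      ∀ j, j ≠ i → (a j : K) ≠ 0 → ‖ψ (φ (α j))‖ = R ∧ ψ (φ (α j)) = u j * ψ (φ (α i)) := by
    intro φ hφ j hj haj
    have hwj : 0 < w (a j : K) := w.pos_iff.2 haj
    have hej : w.embedding (a j : K) ≠ 0 := by
      rw [← norm_pos_iff, InfinitePlace.norm_embedding_eq]
      exact hwj
    have h1 := tri_eq (univ.erase i) (fun j => w.embedding (a j : K) * ψ (φ (α j)))
      (fun j => w (a j : K) * R) (by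
        intro j _
        rw [norm_mul, InfinitePlace.norm_embedding_eq]
        exact mul_le_mul_of_nonneg_left (hle _ (hφZ φ j)) (apply_nonneg w _)) (by
        rw [hrel', norm_neg, norm_mul, InfinitePlace.norm_embedding_eq, hφ, ← sum_mul]
        exact mul_le_mul_of_nonneg_right hwi hR0.le) j (mem_erase.2 ⟨hj, mem_univ j⟩)
    obtain ⟨h2, h3⟩ := h1
    rw [norm_mul, InfinitePlace.norm_embedding_eq] at h2
    have h4 : ‖ψ (φ (α j))‖ = R := mul_left_cancel₀ hwj.ne' h2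
    refine ⟨h4, ?_⟩
    rw [hrel', norm_neg, norm_mul, norm_mul, InfinitePlace.norm_embedding_eq,
      InfinitePlace.norm_embedding_eq, hφ, h4] at h3
    rw [hu]
    have hRc : (R : ℂ) ≠ 0 := by exact_mod_cast hR0.ne'
    have hwic : ((w (a i : K) : ℝ) : ℂ) ≠ 0 := by exact_mod_cast hwi1.ne'
    have h5 : (R : ℂ) * (((w (a i : K) : ℝ) : ℂ) * (w.embedding (a j : K) * ψ (φ (α j))))
        = (R : ℂ) * (-(((w (a j : K) : ℝ) : ℂ) * (w.embedding (a i : K) * ψ (φ (α i))))) := by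
      push_cast at h3
      linear_combination -h3
    have h6 := mul_left_cancel₀ hRc h5
    field_simp
    linear_combination h6
  -- `u j` is a root of unity
  have hrou : ∀ j, j ≠ i → (a j : K) ≠ 0 → ∃ m : ℕ, 0 < m ∧ u j ^ m = 1 := by
    intro j hj haj
    have hfin : {y : ℂ | ∃ β ∈ Z, ‖ψ β‖ = R ∧ ψ β = y}.Finite := by
      refine ((Z.finite_toSet).image ψ).subset ?_
      rintro y ⟨β, hβ, -, rfl⟩
      exact ⟨β, hβ, rfl⟩
    have hex : ∀ β ∈ Z, ∃ φ : AlgebraicClosure K ≃ₐ[K] AlgebraicClosure K, φ (α i) = β := by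
      intro β hβ
      exact minpoly.exists_algEquiv_of_root'
        (AlgebraicClosure.isAlgebraic K |>.isAlgebraic (α i)) ((hmZ _).1 hβ)
    have hu0 : u j ≠ 0 := by
      obtain ⟨φ, hφ⟩ := hex β₀ hβ₀
      have h1 := key φ (by rw [hφ, hR]) j hj haj
      intro h0
      rw [h0, zero_mul] at h1
      rw [h1.2, norm_zero] at h1
      exact hR0.ne h1.1
    refine rou_of hfin (y := ψ β₀) ⟨β₀, hβ₀, hR.symm, rfl⟩ ?_ hu0 ?_
    · rw [← norm_pos_iff, ← hR]
      exact hR0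
    · rintro z ⟨β, hβ, hβR, rfl⟩
      obtain ⟨φ, hφ⟩ := hex β hβ
      have h1 := key φ (by rw [hφ]; exact hβR) j hj haj
      refine ⟨φ (α j), hφZ φ j, h1.1, ?_⟩
      rw [h1.2, hφ]
  obtain ⟨φ, hφ⟩ := minpoly.exists_algEquiv_of_root'
    (AlgebraicClosure.isAlgebraic K |>.isAlgebraic (α i)) ((hmZ _).1 hβ₀)
  have hφR : ‖ψ (φ (α i))‖ = R := by rw [hφ, hR]
  have hφ0 : φ (α i) ≠ 0 := (map_ne_zero_iff _ φ.injective).2 (hα0 i)
  refine ⟨fun j => if (a j : K) = 0 then 1 else φ (α j) / φ (α i), fun j => ?_, ?_⟩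
  · show ∃ m : ℕ, 0 < m ∧ (if (a j : K) = 0 then 1 else φ (α j) / φ (α i)) ^ m = 1
    by_cases haj : (a j : K) = 0
    · rw [if_pos haj]
      exact ⟨1, one_pos, one_pow 1⟩
    · rw [if_neg haj]
      by_cases hj : j = i
      · rw [hj, div_self hφ0]
        exact ⟨1, one_pos, one_pow 1⟩
      · obtain ⟨m, hm, hum⟩ := hrou j hj haj
        refine ⟨m, hm, ?_⟩
        apply hψi
        have h1 := (key φ hφR j hj haj).2
        have h2 : ψ (φ (α i)) ≠ 0 := by
          rw [Ne, map_eq_zero]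
          exact hφ0
        rw [map_pow, map_div₀, h1, mul_div_assoc, div_self h2, mul_one, hum, map_one]
  · show ∑ j, algebraMap K (AlgebraicClosure K) (a j : K) *
      (if (a j : K) = 0 then 1 else φ (α j) / φ (α i)) = 0
    have h1 : ∀ j, algebraMap K (AlgebraicClosure K) (a j : K) *
        (if (a j : K) = 0 then 1 else φ (α j) / φ (α i))
        = φ (algebraMap K (AlgebraicClosure K) (a j : K) * α j) / φ (α i) := by
      intro j
      split_ifs with h
      · rw [h]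
        simp
      · rw [map_mul, φ.commutes]
        ring
    rw [sum_congr rfl fun j _ => h1 j, ← sum_div, ← map_sum, hsum, map_zero, zero_div]

end Pool.Agent.Q119.SY
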