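import Pool.Agent.Q247.SY.Stm

/-!
# Project SY of helper247: `S_NECF`
-/

set_option autoImplicit false
open scoped NumberField
open NumberField

namespace Pool.Agent.Q119.SY

open Finset Q247.SY

section det

variable {K Γ : Type} [Field K] [LinearOrderedCommGroupWithZero Γ] (v : Valuation K Γ)

/-- the elements of valuation less than one -/
def ltI : Ideal v.integer where
  carrier := {x | v (x : K) < 1}
  add_mem' := by
    intro a b ha hb
    show v ((a : K) + (b : K)) < 1
    exact v.map_add_lt ha hb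
  zero_mem' := by
    show v ((0 : v.integer) : K) < 1
    simp
  smul_mem' := by
    intro c x hx
    show v ((c : K) * (x : K)) < 1
    rw [map_mul]
    have hc : v (c : K) ≤ 1 := c.2
    have hx' : v (x : K) < 1 := hx
    calc v (c : K) * v (x : K) ≤ 1 * v (x : K) := by gcongr
      _ = v (x : K) := one_mul _
      _ < 1 := hx'

theorem det_ne {ι : Type} [Fintype ι] [DecidableEq ι] (M : Matrix ι ι K)
    (hM : ∀ i j, v (M i j) < 1) : (1 - M).det ≠ 0 := by
  obtain ⟨M', hM'⟩ : ∃ M' : Matrix ι ι v.integer, M' = fun i j => ⟨M i j, (hM i j).le⟩ := ⟨_, rfl⟩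
  have h1 : (1 - M) = (1 - M').map (algebraMap v.integer K) := by
    rw [Matrix.map_sub _ (map_sub _), Matrix.map_one _ (map_zero _) (map_one _)]
    congr 1
    rw [hM']
    rfl
  have h2 : (1 - M').map (Ideal.Quotient.mk (ltI v)) = 1 := by
    have h3 : M'.map (Ideal.Quotient.mk (ltI v)) = 0 := by
      ext i j
      rw [Matrix.map_apply, hM']
      show Ideal.Quotient.mk (ltI v) _ = 0
      rw [Ideal.Quotient.eq_zero_iff_mem]
      exact hM i j
    rw [Matrix.map_sub _ (map_sub _), h3, sub_zero]
    exact Matrix.map_one _ (map_zero _) (map_one _)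
  have h4 : Ideal.Quotient.mk (ltI v) ((1 - M').det) = 1 := by
    rw [RingHom.map_det, RingHom.mapMatrix_apply, h2, Matrix.det_one]
  intro h0
  have h5 : algebraMap v.integer K ((1 - M').det) = 0 := by
    rw [RingHom.map_det, RingHom.mapMatrix_apply, ← h1, h0]
  have h6 : (1 - M').det = 0 := by
    apply Subtype.ext
    exact h5
  rw [h6, map_zero] at h4
  have h7 : (1 : v.integer) ∈ ltI v := by
    rw [← Ideal.Quotient.eq_zero_iff_mem, map_one]
    exact h4.symm
  have h8 : v ((1 : v.integer) : K) < 1 := h7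
  simp at h8

end det

theorem t_NECF : S_NECF := by
  classical
  intro K _ _ n a hn hconj v i
  obtain ⟨α, hα0, hαm, hsum⟩ := hconj
  by_contra hcon
  push Not at hcon
  -- `hcon : ∀ j ≠ i, v (a j) < v (a i)`
  obtain ⟨j₀, hj₀⟩ : ∃ j₀ : Fin n, j₀ ≠ i := by
    have : Nontrivial (Fin n) := Fin.nontrivial_iff_two_le.2 hn
    exact exists_ne i
  have hvi : (0 : WithZero (Multiplicative ℤ)) < v.valuation K (a i : K) :=
    lt_of_le_of_lt zero_le (hcon j₀ hj₀)
  have hai : (a i : K) ≠ 0 := by
    intro h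
    rw [h, map_zero] at hvi
    exact lt_irrefl _ hvi
  obtain ⟨b, hb⟩ : ∃ b : Fin n → K, b = fun j => -((a j : K) / (a i : K)) := ⟨_, rfl⟩
  have hbv : ∀ j, j ≠ i → v.valuation K (b j) < 1 := by
    intro j hj
    rw [hb]
    show v.valuation K (-((a j : K) / (a i : K))) < 1
    rw [Valuation.map_neg, map_div₀]
    exact (div_lt_one₀ hvi).2 (hcon j hj)
  obtain ⟨Z, hZ⟩ : ∃ Z : Finset (AlgebraicClosure K),
      Z = ((minpoly K (α i)).aroots (AlgebraicClosure K)).toFinset := ⟨_, rfl⟩
  have hint : IsIntegral K (α i) := (AlgebraicClosure.isAlgebraic K).isIntegral.isIntegral _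
  have hmZ : ∀ x, x ∈ Z ↔ Polynomial.aeval x (minpoly K (α i)) = 0 := by
    intro x
    rw [hZ, Multiset.mem_toFinset, Polynomial.mem_aroots]
    exact ⟨fun h => h.2, fun h => ⟨minpoly.ne_zero hint, h⟩⟩
  have hex : ∀ β : Z, ∃ φ : AlgebraicClosure K ≃ₐ[K] AlgebraicClosure K, φ (α i) = β := by
    intro β
    obtain ⟨ψ, hψ⟩ := minpoly.exists_algEquiv_of_root'
      (AlgebraicClosure.isAlgebraic K |>.isAlgebraic (α i)) ((hmZ _).1 β.2)
    exact ⟨ψ, hψ⟩
  choose φ hφ using hex
  have hφZ : ∀ (β : Z) (j : Fin n), φ β (α j) ∈ Z := by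
    intro β j
    rw [hmZ, ← hαm j i]
    have h1 : Polynomial.aeval (φ β (α j)) (minpoly K (α j))
        = φ β (Polynomial.aeval (α j) (minpoly K (α j))) := by
      rw [← Polynomial.aeval_algHom_apply]
    rw [h1, minpoly.aeval, map_zero]
  obtain ⟨M, hM⟩ : ∃ M : Matrix Z Z K, M = fun (β β' : Z) =>
      ∑ j ∈ univ.erase i, if φ β (α j) = (β' : AlgebraicClosure K) then b j else 0 := ⟨_, rfl⟩
  have hMv : ∀ β β', v.valuation K (M β β') < 1 := by
    intro β β'
    rw [hM]
    refine Valuation.map_sum_lt _ one_ne_zero fun j hj => ?_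
    split_ifs
    · exact hbv j (mem_erase.1 hj).1
    · simp
  have hdet := det_ne (v.valuation K) M hMv
  obtain ⟨z, hz⟩ : ∃ z : Z → AlgebraicClosure K, z = fun β => β.1 := ⟨_, rfl⟩
  have hfix : ∀ β : Z, (β : AlgebraicClosure K)
      = ∑ j ∈ univ.erase i, algebraMap K (AlgebraicClosure K) (b j) * φ β (α j) := by
    intro β
    have h1 : φ β (∑ j, algebraMap K (AlgebraicClosure K) (a j : K) * α j) = 0 := by
      rw [hsum, map_zero]
    rw [map_sum, ← add_sum_erase _ _ (mem_univ i)] at h1
    have h2 : ∀ j, φ β (algebraMap K (AlgebraicClosure K) (a j : K) * α j)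
        = algebraMap K (AlgebraicClosure K) (a j : K) * φ β (α j) := by
      intro j
      rw [map_mul, (φ β).commutes]
    rw [h2, hφ] at h1
    simp only [h2] at h1
    have hai' : algebraMap K (AlgebraicClosure K) (a i : K) ≠ 0 := by
      rw [Ne, map_eq_zero]
      exact hai
    have h3 : ∀ j, algebraMap K (AlgebraicClosure K) (b j) * φ β (α j)
        = -(algebraMap K (AlgebraicClosure K) (a i : K))⁻¹ *
          (algebraMap K (AlgebraicClosure K) (a j : K) * φ β (α j)) := by
      intro j
      rw [hb]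
      simp only [map_neg, map_div₀]
      ring
    simp only [h3]
    rw [← mul_sum]
    have h4 : ∑ j ∈ univ.erase i, algebraMap K (AlgebraicClosure K) (a j : K) * φ β (α j)
        = -(algebraMap K (AlgebraicClosure K) (a i : K) * β) := by
      rw [eq_neg_iff_add_eq_zero, add_comm]
      exact h1
    rw [h4]
    field_simp
  have hMz : ((1 - M).map (algebraMap K (AlgebraicClosure K))).mulVec z = 0 := by
    rw [Matrix.map_sub _ (map_sub _), Matrix.map_one _ (map_zero _) (map_one _),
      Matrix.sub_mulVec, Matrix.one_mulVec, sub_eq_zero]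
    funext β
    rw [Matrix.mulVec, dotProduct]
    simp only [Matrix.map_apply]
    rw [hM, hz]
    show (β : AlgebraicClosure K) = ∑ β' : Z, algebraMap K (AlgebraicClosure K)
      (∑ j ∈ univ.erase i, if φ β (α j) = β' then b j else 0) * (β' : AlgebraicClosure K)
    rw [hfix β]
    have h1 : ∀ β' : Z, algebraMap K (AlgebraicClosure K)
        (∑ j ∈ univ.erase i, if φ β (α j) = β' then b j else 0) * (β' : AlgebraicClosure K)
        = ∑ j ∈ univ.erase i, if φ β (α j) = β' then
          algebraMap K (AlgebraicClosure K) (b j) * φ β (α j) else 0 := by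
      intro β'
      rw [map_sum, sum_mul]
      refine sum_congr rfl fun j _ => ?_
      split_ifs with h
      · rw [h]
      · simp
    rw [sum_congr rfl fun β' _ => h1 β', sum_comm]
    refine sum_congr rfl fun j _ => ?_
    rw [sum_eq_single (⟨φ β (α j), hφZ β j⟩ : Z)]
    · simp
    · intro β' _ hne
      rw [if_neg]
      intro h
      exact hne (Subtype.ext h.symm)
    · intro h
      exact absurd (mem_univ _) h
  have hdet' : ((1 - M).map (algebraMap K (AlgebraicClosure K))).det ≠ 0 := by
    have h1 : ((1 - M).map (algebraMap K (AlgebraicClosure K))).det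
        = algebraMap K (AlgebraicClosure K) ((1 - M).det) := by
      rw [RingHom.map_det, RingHom.mapMatrix_apply]
    rw [h1, Ne, map_eq_zero]
    exact hdet
  have hz0 := Matrix.eq_zero_of_mulVec_eq_zero hdet' hMz
  have hαZ : α i ∈ Z := by
    rw [hmZ]
    exact minpoly.aeval _ _
  have h1 := congrFun hz0 ⟨α i, hαZ⟩
  rw [hz] at h1
  exact hα0 i h1

end Pool.Agent.Q119.SY
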