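import Pool.Agent.Q247.SY.Stm

/-!
# Project SY of helper247: `S_PUSH`
-/

set_option autoImplicit false
open scoped NumberField
open NumberField

namespace Pool.Agent.Q119.SY

open Finset Q247.SY

/-- one place -/
theorem pol {𝕜 : Type} [RCLike 𝕜] {n : ℕ} (e : Fin n → 𝕜) (i : Fin n)
    (h : ‖e i‖ < ∑ j ∈ univ.erase i, ‖e j‖) :
    ∃ ζ : Fin n → 𝕜, ∑ j ∈ univ.erase i, e j * ζ j = -e i ∧
      ∀ j, ‖ζ j‖ ≤ ‖e i‖ / ∑ j ∈ univ.erase i, ‖e j‖ := by
  obtain ⟨s, hs⟩ : ∃ s : ℝ, s = ∑ j ∈ univ.erase i, ‖e j‖ := ⟨_, rfl⟩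
  rw [← hs] at h
  have hs0 : 0 < s := (norm_nonneg _).trans_lt h
  have hs0' : (s : 𝕜) ≠ 0 := by exact_mod_cast hs0.ne'
  refine ⟨fun j => -(e i / (s : 𝕜)) * (starRingEnd 𝕜 (e j) / (‖e j‖ : 𝕜)), ?_, fun j => ?_⟩
  · have h1 : ∀ j, e j * (-(e i / (s : 𝕜)) * (starRingEnd 𝕜 (e j) / (‖e j‖ : 𝕜)))
        = -(e i / (s : 𝕜)) * ((‖e j‖ : ℝ) : 𝕜) := by
      intro j
      by_cases hj : e j = 0
      · simp [hj]
      · have h2 : ((‖e j‖ : ℝ) : 𝕜) ≠ 0 := by
          have : ‖e j‖ ≠ 0 := norm_ne_zero_iff.2 hj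
          exact_mod_cast this
        have h3 : e j * starRingEnd 𝕜 (e j) = ((‖e j‖ : ℝ) : 𝕜) * ((‖e j‖ : ℝ) : 𝕜) := by
          rw [RCLike.mul_conj, sq]
        field_simp
        linear_combination -(e i) * h3
    rw [sum_congr rfl fun j _ => h1 j, ← mul_sum]
    have h2 : ∑ j ∈ univ.erase i, ((‖e j‖ : ℝ) : 𝕜) = (s : 𝕜) := by
      rw [hs]
      push_cast
      rfl
    rw [h2]
    field_simp
  · rw [← hs, norm_mul, norm_neg, norm_div, norm_div, RCLike.norm_conj, RCLike.norm_ofReal,
      RCLike.norm_ofReal, abs_of_pos hs0, abs_of_nonneg (norm_nonneg _)]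
    have h1 : ‖e j‖ / ‖e j‖ ≤ 1 := div_self_le_one _
    calc ‖e i‖ / s * (‖e j‖ / ‖e j‖) ≤ ‖e i‖ / s * 1 :=
          mul_le_mul_of_nonneg_left h1 (by positivity)
      _ = ‖e i‖ / s := mul_one _

section mixed

variable {K : Type} [Field K]

/-- the elements `z` -/
theorem exZ {n : ℕ} (a : Fin n → 𝓞 K) (i : Fin n)
    (h : ∀ v : InfinitePlace K, v (a i : K) < ∑ j ∈ univ.erase i, v (a j : K)) :
    ∃ z : Fin n → mixedEmbedding.mixedSpace K,
      ∑ j ∈ univ.erase i, mixedEmbedding K (a j : K) * z j = -mixedEmbedding K (a i : K) ∧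
      ∀ j, ∀ v : InfinitePlace K, mixedEmbedding.normAtPlace v (z j)
        ≤ v (a i : K) / ∑ j ∈ univ.erase i, v (a j : K) := by
  have hR : ∀ v : {v : InfinitePlace K // InfinitePlace.IsReal v},
      ∃ ζ : Fin n → ℝ, ∑ j ∈ univ.erase i,
        InfinitePlace.embedding_of_isReal v.2 (a j : K) * ζ j
          = -InfinitePlace.embedding_of_isReal v.2 (a i : K) ∧
      ∀ j, ‖ζ j‖ ≤ v.1 (a i : K) / ∑ j ∈ univ.erase i, v.1 (a j : K) := by
    intro v
    have h1 := pol (fun j => InfinitePlace.embedding_of_isReal v.2 (a j : K)) i (by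
      simp only [InfinitePlace.norm_embedding_of_isReal]
      exact h v.1)
    simpa only [InfinitePlace.norm_embedding_of_isReal] using h1
  have hC : ∀ v : {v : InfinitePlace K // InfinitePlace.IsComplex v},
      ∃ ζ : Fin n → ℂ, ∑ j ∈ univ.erase i, v.1.embedding (a j : K) * ζ j
          = -v.1.embedding (a i : K) ∧
      ∀ j, ‖ζ j‖ ≤ v.1 (a i : K) / ∑ j ∈ univ.erase i, v.1 (a j : K) := by
    intro v
    have h1 := pol (fun j => v.1.embedding (a j : K)) i (by
      simp only [InfinitePlace.norm_embedding_eq]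
      exact h v.1)
    simpa only [InfinitePlace.norm_embedding_eq] using h1
  choose ζR hζR using hR
  choose ζC hζC using hC
  refine ⟨fun j => (fun v => ζR v j, fun v => ζC v j), ?_, fun j v => ?_⟩
  · refine Prod.ext ?_ ?_
    · funext v
      rw [Prod.fst_sum, Finset.sum_apply]
      have h1 := (hζR v).1
      simpa using h1
    · funext v
      rw [Prod.snd_sum, Finset.sum_apply]
      have h1 := (hζC v).1
      simpa using h1
  · rcases InfinitePlace.isReal_or_isComplex v with hv | hv
    · rw [mixedEmbedding.normAtPlace_apply_of_isReal hv]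
      exact (hζR ⟨v, hv⟩).2 j
    · rw [mixedEmbedding.normAtPlace_apply_of_isComplex hv]
      exact (hζC ⟨v, hv⟩).2 j

theorem nap_sum (w : InfinitePlace K) {ι : Type} (s : Finset ι)
    (f : ι → mixedEmbedding.mixedSpace K) :
    mixedEmbedding.normAtPlace w (∑ j ∈ s, f j) ≤ ∑ j ∈ s, mixedEmbedding.normAtPlace w (f j) := by
  classical
  induction s using Finset.induction_on with
  | empty => simp
  | insert a s ha ih =>
    rw [sum_insert ha, sum_insert ha]
    exact (mixedEmbedding.normAtPlace_add_le w _ _).trans (by gcongr)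

end mixed

/-- a bound below one for finitely many numbers -/
theorem exRho {ι : Type} [Finite ι] (f : ι → ℝ) (hf : ∀ i, f i < 1) :
    ∃ ρ : ℝ, 0 < ρ ∧ ρ < 1 ∧ ∀ i, f i ≤ ρ := by
  classical
  have := Fintype.ofFinite ι
  obtain ⟨S, hS⟩ : ∃ S : Finset ℝ, S = insert (1 / 2) (univ.image f) := ⟨_, rfl⟩
  have hne : S.Nonempty := ⟨1 / 2, by rw [hS]; exact mem_insert_self _ _⟩
  obtain ⟨m, hm⟩ : ∃ m, m = S.max' hne := ⟨_, rfl⟩
  have hmS : m ∈ S := by rw [hm]; exact S.max'_mem hne
  have hle : ∀ x ∈ S, x ≤ m := fun x hx => by rw [hm]; exact S.le_max' x hx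
  rw [hS] at hmS hle
  refine ⟨m, ?_, ?_, fun i => ?_⟩
  · have h1 : (1 / 2 : ℝ) ≤ m := hle _ (mem_insert_self _ _)
    linarith
  · rw [mem_insert, mem_image] at hmS
    rcases hmS with h2 | ⟨i, -, h2⟩
    · rw [h2]
      norm_num
    · rw [← h2]
      exact hf i
  · exact hle _ (mem_insert_of_mem (mem_image_of_mem f (mem_univ i)))

/-- sums of values of the vectors `h` -/
theorem syz_sum {R : Type} [CommRing R] {n : ℕ} (a : Fin n → R) (x : Fin n → R)
    (h : IsSyz a x) : ∑ i, a i * x i = 0 := by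
  obtain ⟨s, hs⟩ := h
  have h1 : ∀ j k : Fin n, ∑ i, a i * hv a j k i = 0 := by
    intro j k
    unfold hv
    simp only [mul_sub, mul_ite, mul_zero, sum_sub_distrib, sum_ite_eq', mem_univ, if_true]
    ring
  have h2 : ∑ i, a i * x i = ∑ i, ∑ j, ∑ k, s j k * (a i * hv a j k i) := by
    refine sum_congr rfl fun i _ => ?_
    rw [hs i, mul_sum]
    refine sum_congr rfl fun j _ => ?_
    rw [mul_sum]
    refine sum_congr rfl fun k _ => ?_
    ring
  rw [h2, sum_comm]
  refine sum_eq_zero fun j _ => ?_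
  rw [sum_comm]
  refine sum_eq_zero fun k _ => ?_
  rw [← mul_sum, h1, mul_zero]

theorem t_PUSH : S_PUSH := by
  classical
  intro hRd K _ _ n a hst hloc
  obtain ⟨C, hC0, hC⟩ := hRd K
  -- the bound below one
  obtain ⟨ρ, hρ0, hρ1, hρ⟩ := exRho (ι := InfinitePlace K × Fin n)
    (fun p => p.1 (a p.2 : K) / ∑ j ∈ univ.erase p.2, p.1 (a j : K)) (fun p => by
      have h1 := hst p.1 p.2
      have h2 : 0 < ∑ j ∈ univ.erase p.2, p.1 (a j : K) := (apply_nonneg p.1 _).trans_lt h1
      exact (div_lt_one h2).2 h1)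
  obtain ⟨D, hD⟩ : ∃ D : ℝ, D = ∑ w : InfinitePlace K, (∑ l, w (a l : K)) * C + 1 := ⟨_, rfl⟩
  have hD0 : 0 < D := by
    rw [hD]
    have : 0 ≤ ∑ w : InfinitePlace K, (∑ l, w (a l : K)) * C :=
      sum_nonneg fun w _ => mul_nonneg (sum_nonneg fun l _ => apply_nonneg w _) hC0.le
    linarith
  refine ⟨ρ, D, hρ0, hρ1, hD0, fun i t htm => ?_⟩
  -- the index `r`
  obtain ⟨w₀⟩ : Nonempty (InfinitePlace K) := inferInstance
  obtain ⟨r, hr, har⟩ : ∃ r, r ≠ i ∧ (a r : K) ≠ 0 := by
    by_contra hcon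
    push Not at hcon
    have h1 := hst w₀ i
    have h2 : ∑ j ∈ univ.erase i, w₀ (a j : K) = 0 := by
      refine sum_eq_zero fun j hj => ?_
      rw [hcon j (mem_erase.1 hj).1, map_zero]
    rw [h2] at h1
    exact absurd h1 (not_lt.2 (apply_nonneg w₀ _))
  -- the coefficients `s`
  obtain ⟨s, hs⟩ : ∃ s : Fin n → 𝓞 K, ∑ j ∈ univ.erase i, a j * s j = t := by
    have h1 : Ideal.span (Set.range a) ≤ Ideal.span (a '' {j | j ≠ i}) := by
      rw [Ideal.span_le]
      rintro _ ⟨j, rfl⟩
      by_cases hj : j = i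
      · rw [hj]
        exact hloc i
      · exact Ideal.subset_span ⟨j, hj, rfl⟩
    have h2 := h1 htm
    have h3 : a '' {j | j ≠ i} = a '' ((univ.erase i : Finset (Fin n)) : Set (Fin n)) := by
      congr 1
      ext j
      simp
    rw [h3] at h2
    obtain ⟨c, hc⟩ := (Submodule.mem_span_image_finset_iff_exists_fun (R := 𝓞 K)).1 h2
    refine ⟨fun j => if h : j ∈ univ.erase i then c ⟨j, h⟩ else 0, ?_⟩
    rw [← hc, ← sum_coe_sort (univ.erase i)]
    refine sum_congr rfl fun j _ => ?_
    show a j * (if h : (j : Fin n) ∈ univ.erase i then c ⟨j, h⟩ else 0) = c j • a j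
    rw [dif_pos j.2, smul_eq_mul, mul_comm]
  obtain ⟨z, hz1, hz2⟩ := exZ a i (fun v => hst v i)
  -- rounding
  have hy : ∀ j, ∃ y : 𝓞 K, ∀ w : InfinitePlace K,
      mixedEmbedding.normAtPlace w (mixedEmbedding K (y : K) -
        (z j * mixedEmbedding K (t : K) + mixedEmbedding K ((a i * s j : 𝓞 K) : K)) *
          mixedEmbedding K ((a r : K)⁻¹)) ≤ C := fun j => hC _
  choose y hy using hy
  -- the vector
  obtain ⟨x, hx⟩ : ∃ x : Fin n → 𝓞 K, x = fun l =>
      ∑ j ∈ univ.erase i, s j * hv a i j l + ∑ j ∈ (univ.erase i).erase r, y j * hv a j r l :=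
    ⟨_, rfl⟩
  have hsyz : IsSyz a x := by
    refine ⟨fun j k => (if j = i ∧ k ≠ i then s k else 0) +
      (if k = r ∧ j ≠ i ∧ j ≠ r then y j else 0), fun l => ?_⟩
    rw [hx]
    simp only [add_mul, sum_add_distrib, ite_mul, zero_mul]
    congr 1
    · symm
      rw [sum_comm]
      rw [← sum_filter_add_sum_filter_not univ (fun k => k = i)]
      have e1 : ∑ k ∈ univ.filter (fun k => k = i), ∑ j, (if j = i ∧ k ≠ i then s k * hv a j k l else 0)
          = 0 := by
        refine sum_eq_zero fun k hk => sum_eq_zero fun j _ => ?_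
        rw [if_neg]
        rintro ⟨-, h2⟩
        exact h2 (mem_filter.1 hk).2
      rw [e1, zero_add]
      refine sum_congr ?_ fun k hk => ?_
      · ext k
        simp
      · have hki : k ≠ i := (mem_erase.1 hk).1
        rw [sum_eq_single i]
        · rw [if_pos ⟨rfl, hki⟩]
        · intro j _ hj
          rw [if_neg]
          rintro ⟨h2, -⟩
          exact hj h2
        · intro h
          exact absurd (mem_univ _) h
    · have e1 : ∀ j, ∑ k, (if k = r ∧ j ≠ i ∧ j ≠ r then y j * hv a j k l else 0)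
          = if j ≠ i ∧ j ≠ r then y j * hv a j r l else 0 := by
        intro j
        rw [sum_eq_single r]
        · by_cases h : j ≠ i ∧ j ≠ r
          · rw [if_pos ⟨rfl, h⟩, if_pos h]
          · rw [if_neg (fun h2 => h h2.2), if_neg h]
        · intro k _ hk
          rw [if_neg]
          rintro ⟨h2, -⟩
          exact hk h2
        · intro h
          exact absurd (mem_univ _) h
      symm
      rw [sum_congr rfl fun j _ => e1 j, ← sum_filter]
      refine sum_congr ?_ fun _ _ => rfl
      ext j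
      simp only [mem_erase, mem_filter, mem_univ, true_and, and_true]
      tauto
  have hxi : x i = t := by
    rw [hx]
    show ∑ j ∈ univ.erase i, s j * hv a i j i + ∑ j ∈ (univ.erase i).erase r, y j * hv a j r i = t
    have e1 : ∀ j ∈ univ.erase i, s j * hv a i j i = a j * s j := by
      intro j hj
      have hji : j ≠ i := (mem_erase.1 hj).1
      unfold hv
      rw [if_pos rfl, if_neg (Ne.symm hji)]
      ring
    have e2 : ∀ j ∈ (univ.erase i).erase r, y j * hv a j r i = 0 := by
      intro j hj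
      have hji : j ≠ i := (mem_erase.1 (mem_erase.1 hj).2).1
      unfold hv
      rw [if_neg (Ne.symm hji), if_neg (Ne.symm hr)]
      ring
    rw [sum_congr rfl e1, sum_congr rfl e2, sum_const_zero, add_zero, hs]
  have hxj : ∀ l, l ≠ i → l ≠ r → x l = y l * a r - s l * a i := by
    intro l hl hlr
    rw [hx]
    show ∑ j ∈ univ.erase i, s j * hv a i j l + ∑ j ∈ (univ.erase i).erase r, y j * hv a j r l = _
    rw [sum_eq_single l, sum_eq_single l]
    · unfold hv
      rw [if_neg hl, if_pos rfl, if_pos rfl, if_neg hlr]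
      ring
    · intro j _ hj
      unfold hv
      rw [if_neg (Ne.symm hj), if_neg hlr]
      ring
    · intro h
      exact absurd (mem_erase.2 ⟨hlr, mem_erase.2 ⟨hl, mem_univ _⟩⟩) h
    · intro j _ hj
      unfold hv
      rw [if_neg hl, if_neg (Ne.symm hj)]
      ring
    · intro h
      exact absurd (mem_erase.2 ⟨hl, mem_univ _⟩) h
  have hsum := syz_sum a x hsyz
  refine ⟨x, hsyz, hxi, fun j hj => ?_⟩
  -- the estimates
  obtain ⟨E, hE⟩ : ∃ E : 𝓞 K → mixedEmbedding.mixedSpace K,
      E = fun b : 𝓞 K => mixedEmbedding K (b : K) := ⟨_, rfl⟩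
  have hEr : E (a r) * mixedEmbedding K ((a r : K)⁻¹) = 1 := by
    rw [hE]
    show mixedEmbedding K (a r : K) * mixedEmbedding K ((a r : K)⁻¹) = 1
    rw [← map_mul, mul_inv_cancel₀ har, map_one]
  have hnE : ∀ (w : InfinitePlace K) (b : 𝓞 K), mixedEmbedding.normAtPlace w (E b) = w (b : K) := by
    intro w b
    rw [hE]
    exact mixedEmbedding.normAtPlace_apply w _
  have hest : ∀ l, l ≠ i → l ≠ r → ∀ w : InfinitePlace K,
      mixedEmbedding.normAtPlace w (E (x l) - z l * E t) ≤ w (a r : K) * C := by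
    intro l hl hlr w
    have h1 : E (x l) - z l * E t = E (a r) * (E (y l) -
        (z l * E t + E (a i * s l)) * mixedEmbedding K ((a r : K)⁻¹)) := by
      have h2 : E (x l) = E (y l) * E (a r) - E (s l) * E (a i) := by
        rw [hxj l hl hlr, hE]
        simp
      have h3 : E (a i * s l) = E (a i) * E (s l) := by
        rw [hE]
        simp
      rw [h2, h3]
      linear_combination (z l * E t + E (a i) * E (s l)) * hEr
    rw [h1, map_mul, hnE]
    refine mul_le_mul_of_nonneg_left ?_ (apply_nonneg w _)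
    rw [hE]
    exact hy l w
  have hest' : ∀ l, l ≠ i → ∀ w : InfinitePlace K,
      mixedEmbedding.normAtPlace w (E (x l) - z l * E t) ≤ (∑ l, w (a l : K)) * C := by
    intro l hl w
    by_cases hlr : l = r
    · rw [hlr]
      have h1 : E (a r) * (E (x r) - z r * E t)
          = -∑ l ∈ (univ.erase i).erase r, E (a l) * (E (x l) - z l * E t) := by
        have h2 : ∑ l, E (a l) * E (x l) = 0 := by
          have h3 : E (∑ i, a i * x i) = 0 := by
            rw [hsum, hE]
            simp
          rw [← h3, hE]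
          simp [map_sum]
        have h4 : ∑ l ∈ univ.erase i, E (a l) * z l = -E (a i) := by
          rw [hE]
          exact hz1
        have h5 : ∑ l ∈ univ.erase i, E (a l) * (E (x l) - z l * E t) = 0 := by
          rw [← add_sum_erase _ _ (mem_univ i), hxi] at h2
          have h6 : ∑ l ∈ univ.erase i, E (a l) * (E (x l) - z l * E t)
              = ∑ l ∈ univ.erase i, E (a l) * E (x l) - (∑ l ∈ univ.erase i, E (a l) * z l) * E t := by
            rw [sum_mul, ← sum_sub_distrib]
            refine sum_congr rfl fun l _ => ?_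
            ring
          rw [h6, h4]
          linear_combination h2
        rw [← add_sum_erase _ _ (mem_erase.2 ⟨hr, mem_univ r⟩)] at h5
        exact eq_neg_of_add_eq_zero_left h5
      have h7 : w (a r : K) * mixedEmbedding.normAtPlace w (E (x r) - z r * E t)
          ≤ w (a r : K) * ((∑ l, w (a l : K)) * C) := by
        rw [← hnE w (a r), ← map_mul, h1, mixedEmbedding.normAtPlace_neg, hnE]
        calc mixedEmbedding.normAtPlace w
              (∑ l ∈ (univ.erase i).erase r, E (a l) * (E (x l) - z l * E t))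
            ≤ ∑ l ∈ (univ.erase i).erase r,
              mixedEmbedding.normAtPlace w (E (a l) * (E (x l) - z l * E t)) := nap_sum w _ _
          _ ≤ ∑ l ∈ (univ.erase i).erase r, w (a l : K) * (w (a r : K) * C) := by
              refine sum_le_sum fun l hl => ?_
              rw [map_mul, hnE]
              exact mul_le_mul_of_nonneg_left (hest l (mem_erase.1 (mem_erase.1 hl).2).1
                (mem_erase.1 hl).1 w) (apply_nonneg w _)
          _ ≤ ∑ l, w (a l : K) * (w (a r : K) * C) :=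
              sum_le_sum_of_subset_of_nonneg (subset_univ _) fun l _ _ =>
                mul_nonneg (apply_nonneg w _) (mul_nonneg (apply_nonneg w _) hC0.le)
          _ = w (a r : K) * ((∑ l, w (a l : K)) * C) := by
              rw [← sum_mul]
              ring
      exact le_of_mul_le_mul_left h7 (w.pos_iff.2 har)
    · refine (hest l hl hlr w).trans ?_
      refine mul_le_mul_of_nonneg_right ?_ hC0.le
      exact single_le_sum (f := fun l => w (a l : K)) (fun l _ => apply_nonneg w _) (mem_univ r)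
  have hw : ∀ w : InfinitePlace K, w (x j : K) ≤ ρ * w (t : K) + (∑ l, w (a l : K)) * C := by
    intro w
    rw [← hnE w (x j)]
    have h1 : E (x j) = z j * E t + (E (x j) - z j * E t) := by ring
    rw [h1]
    refine (mixedEmbedding.normAtPlace_add_le w _ _).trans (add_le_add ?_ (hest' j hj w))
    rw [map_mul, hnE]
    exact mul_le_mul_of_nonneg_right ((hz2 j w).trans (hρ (w, i))) (apply_nonneg w _)
  unfold ht
  calc ∑ w : InfinitePlace K, w (x j : K)
      ≤ ∑ w : InfinitePlace K, (ρ * w (t : K) + (∑ l, w (a l : K)) * C) :=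
        sum_le_sum fun w _ => hw w
    _ = ρ * ∑ w : InfinitePlace K, w (t : K) + ∑ w : InfinitePlace K, (∑ l, w (a l : K)) * C := by
        rw [sum_add_distrib, ← mul_sum]
    _ ≤ _ := by
        rw [hD]
        linarith

end Pool.Agent.Q119.SY
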