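import Pool.Agent.Q247.SY.Stm

/-!
# Project SY of helper247: `S_RAT`
-/

set_option autoImplicit false

namespace Pool.Agent.Q119.SY

open Finset Filter Topology Q247.SY

/-- a rational functional which is positive on a finite set of positive numbers -/
theorem exL {ι : Type} (S : Finset ι) (μ : ι → ℝ) (hμ : ∀ g ∈ S, 0 < μ g) :
    ∃ L : ℝ →ₗ[ℚ] ℚ, ∀ g ∈ S, 0 < L (μ g) := by
  classical
  obtain ⟨V, hV⟩ : ∃ V : Submodule ℚ ℝ, V = Submodule.span ℚ ((S.image μ : Finset ℝ) : Set ℝ) :=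
    ⟨_, rfl⟩
  have : FiniteDimensional ℚ V := by
    rw [hV]
    exact FiniteDimensional.span_finset ℚ _
  obtain ⟨b, -⟩ : ∃ b : Module.Basis (Fin (Module.finrank ℚ V)) ℚ V, True :=
    ⟨Module.finBasis ℚ V, trivial⟩
  have hmem : ∀ g ∈ S, μ g ∈ V := by
    intro g hg
    rw [hV]
    exact Submodule.subset_span (by simpa using ⟨g, hg, rfl⟩)
  obtain ⟨vv, hvv⟩ : ∃ vv : ι → V, ∀ g ∈ S, (vv g : ℝ) = μ g :=
    ⟨fun g => if h : g ∈ S then ⟨μ g, hmem g h⟩ else 0, fun g hg => by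
      show ((if h : g ∈ S then (⟨μ g, hmem g h⟩ : V) else 0 : V) : ℝ) = μ g
      rw [dif_pos hg]⟩
  have hev : ∀ g ∈ S, ∀ᶠ β : Fin (Module.finrank ℚ V) → ℝ in 𝓝 (fun k => ((b k : V) : ℝ)),
      0 < ∑ k, ((b.repr (vv g) k : ℚ) : ℝ) * β k := by
    intro g hg
    have hc : Continuous fun β : Fin (Module.finrank ℚ V) → ℝ =>
        ∑ k, ((b.repr (vv g) k : ℚ) : ℝ) * β k := by fun_prop
    have hval : ∑ k, ((b.repr (vv g) k : ℚ) : ℝ) * ((b k : V) : ℝ) = μ g := by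
      rw [← hvv g hg]
      conv_rhs => rw [← b.sum_repr (vv g)]
      rw [Submodule.coe_sum]
      refine sum_congr rfl fun k _ => ?_
      rw [Submodule.coe_smul, Rat.smul_def]
    have hpos : 0 < ∑ k, ((b.repr (vv g) k : ℚ) : ℝ) * ((b k : V) : ℝ) := by
      rw [hval]
      exact hμ g hg
    exact hc.continuousAt.eventually (lt_mem_nhds hpos)
  have hall : ∀ᶠ β : Fin (Module.finrank ℚ V) → ℝ in 𝓝 (fun k => ((b k : V) : ℝ)),
      ∀ g ∈ S, 0 < ∑ k, ((b.repr (vv g) k : ℚ) : ℝ) * β k :=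
    (Filter.eventually_all_finset S).2 hev
  have hdense : DenseRange (Pi.map (fun (_ : Fin (Module.finrank ℚ V)) (q : ℚ) => (q : ℝ))) :=
    DenseRange.piMap fun _ => Rat.denseRange_cast
  obtain ⟨U, hU, hUo, hUm⟩ := eventually_nhds_iff.1 hall
  obtain ⟨y, hy, q, rfl⟩ := hdense.inter_open_nonempty U hUo ⟨_, hUm⟩
  obtain ⟨L₀, hL₀⟩ : ∃ L₀ : V →ₗ[ℚ] ℚ, L₀ = b.constr ℚ q := ⟨_, rfl⟩
  obtain ⟨L, hL⟩ := LinearMap.exists_extend L₀
  refine ⟨L, fun g hg => ?_⟩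
  have h1 : L (μ g) = L₀ (vv g) := by
    rw [← hL, ← hvv g hg]
    rfl
  have h2 : L₀ (vv g) = ∑ k, b.repr (vv g) k * q k := by
    rw [hL₀, b.constr_apply_fintype ℚ]
    refine sum_congr rfl fun k _ => ?_
    rw [smul_eq_mul, Module.Basis.equivFun_apply]
  rw [h1, h2]
  have h3 := hU _ hy g hg
  have h4 : ∑ k, ((b.repr (vv g) k : ℚ) : ℝ) * Pi.map (fun (_ : Fin (Module.finrank ℚ V)) (q : ℚ) =>
      (q : ℝ)) q k = ((∑ k, b.repr (vv g) k * q k : ℚ) : ℝ) := by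
    push_cast
    rfl
  rw [h4] at h3
  exact_mod_cast h3

/-- positive integer weights -/
theorem exM {ι : Type} (S : Finset ι) (μ : ι → ℝ) (hμ : ∀ g ∈ S, 0 < μ g) :
    ∃ m : ι → ℕ, (∀ g ∈ S, 0 < m g) ∧ ∀ s t : Finset ι, s ⊆ S → t ⊆ S →
      ∑ g ∈ s, μ g = ∑ g ∈ t, μ g → ∑ g ∈ s, m g = ∑ g ∈ t, m g := by
  classical
  obtain ⟨L, hL⟩ := exL S μ hμ
  obtain ⟨D, hD⟩ : ∃ D : ℕ, D = ∏ g ∈ S, (L (μ g)).den := ⟨_, rfl⟩
  have hD0 : 0 < D := by
    rw [hD]
    exact prod_pos fun g _ => (L (μ g)).den_pos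
  have hint : ∀ g ∈ S, ∃ k : ℕ, (k : ℚ) = D * L (μ g) := by
    intro g hg
    obtain ⟨c, hc⟩ : (L (μ g)).den ∣ D := by
      rw [hD]
      exact dvd_prod_of_mem _ hg
    refine ⟨c * (L (μ g)).num.toNat, ?_⟩
    have hn : (((L (μ g)).num.toNat : ℕ) : ℤ) = (L (μ g)).num :=
      Int.toNat_of_nonneg (Rat.num_nonneg.2 (hL g hg).le)
    have hn' : (((L (μ g)).num.toNat : ℕ) : ℚ) = ((L (μ g)).num : ℚ) := by exact_mod_cast hn
    have h1 : ((L (μ g)).den : ℚ) * L (μ g) = (L (μ g)).num := Rat.den_mul_eq_num _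
    rw [hc]
    push_cast
    rw [hn', ← h1]
    ring
  choose! m hm using hint
  refine ⟨m, fun g hg => ?_, fun s t hs ht h => ?_⟩
  · have h1 := hm g hg
    have h2 : (0 : ℚ) < m g := by
      rw [h1]
      exact mul_pos (by exact_mod_cast hD0) (hL g hg)
    exact_mod_cast h2
  · have h1 : ∀ u : Finset ι, u ⊆ S → ((∑ g ∈ u, m g : ℕ) : ℚ) = D * L (∑ g ∈ u, μ g) := by
      intro u hu
      rw [map_sum, mul_sum]
      push_cast
      exact sum_congr rfl fun g hg => hm g (hu hg)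
    have h2 : ((∑ g ∈ s, m g : ℕ) : ℚ) = ((∑ g ∈ t, m g : ℕ) : ℚ) := by
      rw [h1 s hs, h1 t ht, h]
    exact_mod_cast h2

open Classical in
theorem fib_sum {G T : Type} (μ : G →₀ ℝ) (X : G → T) (t : T) :
    μ.mapDomain X t = ∑ g ∈ μ.support.filter (fun g => X g = t), μ g := by
  rw [Finsupp.mapDomain, Finsupp.sum_apply, Finsupp.sum, sum_filter]
  refine sum_congr rfl fun g _ => ?_
  rw [Finsupp.single_apply]

theorem t_RAT : S_RAT := by
  classical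
  intro R _ n a G X hX μ hμ0 hmar hne
  obtain ⟨g₀, i₀, hg₀, hX₀⟩ := hne
  obtain ⟨S, hS⟩ : ∃ S : Finset G, S = μ.support := ⟨_, rfl⟩
  have hSpos : ∀ g ∈ S, 0 < μ g := by
    intro g hg
    rw [hS, Finsupp.mem_support_iff] at hg
    exact lt_of_le_of_ne (hμ0 g) (Ne.symm hg)
  obtain ⟨m, hm0, hm⟩ := exM S μ hSpos
  have hfib : ∀ i j t, ∑ g ∈ S.filter (fun g => X g i = t), m g
      = ∑ g ∈ S.filter (fun g => X g j = t), m g := by
    intro i j t
    refine hm _ _ (filter_subset _ _) (filter_subset _ _) ?_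
    have h1 := congrArg (fun f => f t) (hmar i j)
    simp only [fib_sum] at h1
    rw [hS]
    exact h1
  -- the set
  obtain ⟨x, hx⟩ : ∃ x : Fin n → (Σ g : S, Fin (m g)) → R, x = fun i j => X j.1 i := ⟨_, rfl⟩
  have hcard : ∀ i t, Fintype.card {j : Σ g : S, Fin (m g) // x i j = t}
      = ∑ g ∈ S.filter (fun g => X g i = t), m g := by
    intro i t
    rw [Fintype.card_subtype]
    have h1 : (univ.filter (fun j : Σ g : S, Fin (m g) => x i j = t))
        = (univ.filter (fun g : S => X g i = t)).sigma (fun _ => univ) := by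
      ext j
      rw [hx]
      simp
    rw [h1, card_sigma]
    simp only [card_univ, Fintype.card_fin]
    rw [sum_filter, sum_filter, ← sum_coe_sort S]
  have hequiv : ∀ i, ∃ σ : (Σ g : S, Fin (m g)) ≃ (Σ g : S, Fin (m g)),
      ∀ j, x i₀ (σ j) = x i j := by
    intro i
    have e : ∀ t, Nonempty ({j : Σ g : S, Fin (m g) // x i j = t} ≃
        {j : Σ g : S, Fin (m g) // x i₀ j = t}) := by
      intro t
      refine Fintype.card_eq.1 ?_
      rw [hcard, hcard]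
      exact hfib _ _ _
    exact ⟨Equiv.ofFiberEquiv fun t => (e t).some, fun j => Equiv.ofFiberEquiv_map _ j⟩
  choose σ hσ using hequiv
  obtain ⟨E⟩ : Nonempty (Fin (Fintype.card (Σ g : S, Fin (m g))) ≃ (Σ g : S, Fin (m g))) :=
    ⟨(Fintype.equivFin _).symm⟩
  refine ⟨_, fun i => (E.trans (σ i)).trans E.symm, fun j => x i₀ (E j), ?_, ?_⟩
  · intro h0
    have hg₀S : g₀ ∈ S := by
      rw [hS, Finsupp.mem_support_iff]
      exact hg₀.ne'
    have h1 := congrFun h0 (E.symm ⟨⟨g₀, hg₀S⟩, ⟨0, hm0 g₀ hg₀S⟩⟩)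
    simp only [Equiv.apply_symm_apply, Pi.zero_apply] at h1
    rw [hx] at h1
    exact hX₀ h1
  · intro j
    have h1 : ∀ i, x i₀ (E (((E.trans (σ i)).trans E.symm) j)) = x i (E j) := by
      intro i
      simp only [Equiv.trans_apply, Equiv.apply_symm_apply]
      exact hσ i (E j)
    simp only [h1]
    rw [hx]
    exact hX _

end Pool.Agent.Q119.SY
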